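import Mathlib
import Pool.Agent.Lib.helper11.BackForth

open Set Filter Topology

namespace Pool.Agent.Results.MP_591151_lc.Rado

/-- no nontrivial automorphism preserves every colour -/
def Disting {X I : Type} (G : SimpleGraph X) (c : X → I) : Prop :=
  ∀ φ : G ≃g G, (∀ x, c (φ x) = c x) → ∀ x, φ x = x

abbrev Cn := ℕ → Bool

def N (x : Cn) (m : ℕ) : ℕ := Nat.ofBits fun i : Fin m => x i

def A (x y : Cn) : Prop := ∃ m, x (m + 2 ^ m) ≠ y (m + 2 ^ m) ∧ (∀ k, m + 2 ^ m < k → x k = y k) ∧
  y (m + N x m) ≠ x (m + N y m)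

def G : SimpleGraph Cn where
  Adj := A
  symm := ⟨fun _ _ ⟨m, a, b, c⟩ => ⟨m, a.symm, fun k h => (b k h).symm, c.symm⟩⟩
  loopless := ⟨fun _ ⟨_, a, _⟩ => a rfl⟩

def E : Setoid Cn where
  r x y := ∀ᶠ k in atTop, x k = y k
  iseqv := ⟨fun _ => Eventually.of_forall fun _ => rfl, fun h => h.mono fun _ => Eq.symm,
    fun h h' => (h.and h').mono fun _ a => a.1.trans a.2⟩

lemma A.e {x y : Cn} (h : A x y) : E x y := by
  obtain ⟨m, -, b, -⟩ := h
  exact (eventually_gt_atTop _).mono b

lemma meas : MeasurableSet {p : Cn × Cn | A p.1 p.2} := by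
  have hN : ∀ m, Continuous fun x : Cn => N x m := fun m =>
    (continuous_of_discreteTopology (f := fun f : Fin m → Bool => Nat.ofBits f)).comp
      (continuous_pi fun i => continuous_apply _)
  have ev : Continuous fun q : Cn × ℕ => q.1 q.2 :=
    continuous_prod_of_discrete_right.2 fun n => continuous_apply n
  simp only [A, setOf_exists, setOf_and, setOf_forall]
  refine MeasurableSet.iUnion fun m => MeasurableSet.inter ?_ (MeasurableSet.inter ?_ ?_)
  · exact (isOpen_ne_fun (by fun_prop) (by fun_prop)).measurableSet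
  · exact MeasurableSet.iInter fun k => MeasurableSet.iInter fun _ =>
      (isClosed_eq (by fun_prop) (by fun_prop)).measurableSet
  · exact (isOpen_ne_fun
      (ev.comp (continuous_snd.prodMk (continuous_const.add ((hN m).comp continuous_fst))))
      (ev.comp (continuous_fst.prodMk (continuous_const.add
        ((hN m).comp continuous_snd))))).measurableSet

lemma ext (x y : Cn) (L : ℕ) {T : Set Cn} (hT : T.Finite) (hx : ∀ t ∈ T, E t x) (U : Set Cn) :
    ∃ z, E z x ∧ (∀ k < L, z k = y k) ∧ z ∉ T ∧ ∀ t ∈ T, (A t z ↔ t ∈ U) := by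
  classical
  obtain ⟨m0, hm0⟩ := eventually_atTop.1 ((eventually_all_finite hT).2 hx)
  set m := max m0 L
  have hm : ∀ t ∈ T, ∀ k, m ≤ k → t k = x k := fun t ht k hk =>
    hm0 k ((le_max_left _ _).trans hk) t ht
  have hL : L ≤ m := le_max_right _ _
  clear_value m
  have hpos : 0 < 2 ^ m := by positivity
  have hlt : ∀ t, N t m < 2 ^ m := fun t => Nat.ofBits_lt_two_pow _
  have inj : ∀ t ∈ T, ∀ t' ∈ T, N t m = N t' m → t = t' := by
    intro t ht t' ht' h
    funext k
    by_cases hk : k < m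
    · have := congrArg (fun a => Nat.testBit a k) h
      simpa [N, Nat.testBit_ofBits_lt _ _ hk] using this
    · rw [hm t ht k (by omega), hm t' ht' k (by omega)]
  set b := x (m + N y m)
  let z : Cn := fun k => if k < m then y k else if k < m + 2 ^ m then
    (if ∃ t ∈ T, m + N t m = k ∧ t ∈ U then !b else b) else if k = m + 2 ^ m then !x k else x k
  have z1 : ∀ k < m, z k = y k := fun k hk => by simp [z, hk]
  have z2 : z (m + 2 ^ m) = !x (m + 2 ^ m) := by simp [z]
  have z3 : ∀ k, m + 2 ^ m < k → z k = x k := fun k hk => by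
    simp only [z]; rw [if_neg (by omega), if_neg (by omega), if_neg (by omega)]
  have z4 : N z m = N y m := by unfold N; congr 1; funext i; exact z1 _ i.2
  have z5 : ∀ t ∈ T, t (m + 2 ^ m) ≠ z (m + 2 ^ m) := fun t ht => by
    rw [z2, hm t ht _ (Nat.le_add_right _ _)]; simp
  refine ⟨z, (eventually_gt_atTop _).mono z3, fun k hk => z1 k (by omega),
    fun h => z5 z h rfl, fun t ht => ?_⟩
  have z6 : z (m + N t m) ≠ t (m + N z m) ↔ t ∈ U := by
    rw [z4, hm t ht _ (Nat.le_add_right _ _)]
    simp only [z]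
    rw [if_neg (by omega), if_pos (by have := hlt t; omega)]
    split_ifs with h
    · obtain ⟨t', ht', e, hU⟩ := h
      rw [inj t ht t' ht' (by omega)]
      simpa [b] using hU
    · simp only [b, ne_eq, not_true, false_iff]
      exact fun hU => h ⟨t, ht, rfl, hU⟩
  refine ⟨?_, fun h => ⟨m, z5 t ht, fun k hk => by
    rw [z3 k hk, hm t ht k (by omega)], z6.2 h⟩⟩
  rintro ⟨m', a, b', c⟩
  have hs : StrictMono fun m : ℕ => m + 2 ^ m := fun a b h =>
    add_lt_add h (Nat.pow_lt_pow_right one_lt_two h)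
  rcases lt_trichotomy m' m with h | rfl | h
  · exact absurd (b' _ (hs h)) (z5 t ht)
  · exact z6.1 c
  · have : m + 2 ^ m < m' + 2 ^ m' := hs h
    exact absurd (by rw [z3 _ this, hm t ht _ (h.le.trans (Nat.le_add_right _ _))]) a

lemma cls_countable (x : Cn) : {y | E y x}.Countable := by
  have : {y | E y x} ⊆ ⋃ m : ℕ, range fun (f : Fin m → Bool) (k : ℕ) =>
      if h : k < m then f ⟨k, h⟩ else x k := by
    intro y hy
    obtain ⟨m, hm⟩ := eventually_atTop.1 hy
    refine mem_iUnion.2 ⟨m, fun i => y i, funext fun k => ?_⟩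
    simp only
    split_ifs with h
    · rfl
    · exact (hm k (by omega)).symm
  exact (countable_iUnion fun m => countable_range _).mono this

lemma ray (r : Cn) : ∃ p : ℕ → Cn, (∀ i, E (p i) r) ∧ Function.Injective p ∧
    (∀ i j, A (p i) (p j) ↔ (i + 1 = j ∨ j + 1 = i)) ∧ ∀ v w, E v r → E w r → v ∉ range p →
      w ∉ range p → ∃ i, A v (p i) ∧ (w ≠ v → ¬ A w (p i)) := by
  classical
  obtain ⟨e, he⟩ := ((cls_countable r).prod (cls_countable r)).exists_eq_range
    ⟨(r, r), E.refl r, E.refl r⟩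
  have he' : ∀ n, E (e n).1 r ∧ E (e n).2 r := fun n =>
    (show e n ∈ {y | E y r} ×ˢ {y | E y r} from he ▸ mem_range_self n)
  have st : ∀ (n : ℕ) (q : ℕ → Cn), ∃ z, E z r ∧ ((∀ i < n, E (q i) r) →
      (∀ i < n, z ≠ q i ∧ (A (q i) z ↔ ∃ j, j + 1 = n ∧ q i = q j)) ∧
      ((∀ i < n, (e n).1 ≠ q i) → A (e n).1 z) ∧
      ((∀ i < n, (e n).2 ≠ q i) → (e n).2 ≠ (e n).1 → ¬ A (e n).2 z)) := by
    intro n q
    by_cases hq : ∀ i < n, E (q i) r
    swap
    · exact ⟨r, E.refl r, fun h => absurd h hq⟩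
    obtain ⟨z, h1, -, h2, h3⟩ := ext r r 0 (T := q '' Iio n ∪ {(e n).1, (e n).2})
      (((finite_Iio n).image q).union (toFinite _)) (by
        rintro _ (⟨i, hi, rfl⟩ | rfl | rfl)
        exacts [hq i hi, (he' n).1, (he' n).2])
      {t | (∃ j, j + 1 = n ∧ t = q j) ∨ (t = (e n).1 ∧ ∀ i < n, t ≠ q i)}
    refine ⟨z, h1, fun _ => ⟨fun i hi => ⟨fun h => h2 (Or.inl ⟨i, hi, h.symm⟩), ?_⟩,
      fun h => (h3 _ (by simp)).2 (Or.inr ⟨rfl, h⟩), fun h h' hA => ?_⟩⟩
    · rw [h3 _ (Or.inl ⟨i, hi, rfl⟩)]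
      exact ⟨fun h => h.resolve_right fun h => h.2 i hi rfl, Or.inl⟩
    · rcases (h3 _ (by simp)).1 hA with ⟨j, hj, e⟩ | e
      · exact h j (by omega) e
      · exact h' e.1
  choose s hs1 hs2 using st
  let p : ℕ → Cn := (wellFounded_lt (α := ℕ)).fix fun n ih =>
    s n fun i => if h : i < n then ih i h else r
  have hp : ∀ n, p n = s n fun i => if i < n then p i else r := fun n =>
    (wellFounded_lt (α := ℕ)).fix_eq _ n
  have h1 : ∀ n, E (p n) r := fun n => by rw [hp]; exact hs1 _ _
  have h2 := fun n => hs2 n (fun i => if i < n then p i else r) fun i hi => by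
    simpa [hi] using h1 i
  simp only [← hp] at h2
  have inj : Function.Injective p := Function.Injective.of_lt_imp_ne fun i n hi => by
    have := ((h2 n).1 i hi).1
    rw [if_pos hi] at this
    exact this.symm
  have adj : ∀ i n, i < n → (A (p i) (p n) ↔ i + 1 = n) := fun i n hi => by
    have := ((h2 n).1 i hi).2
    rw [if_pos hi] at this
    rw [this]
    constructor
    · rintro ⟨j, hj, e⟩
      rw [if_pos (by omega)] at e
      rw [inj e, hj]
    · intro h; exact ⟨i, h, by rw [if_pos hi]⟩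
  refine ⟨p, h1, inj, fun i j => ?_, fun v w hv hw hv' hw' => ?_⟩
  · rcases lt_trichotomy i j with h | rfl | h
    · rw [adj i j h]; omega
    · exact ⟨fun h => (G.loopless.irrefl _ h).elim, by omega⟩
    · rw [show A (p i) (p j) ↔ A (p j) (p i) from G.adj_comm _ _, adj j i h]; omega
  · obtain ⟨n, hn⟩ : (v, w) ∈ range e := he ▸ ⟨hv, hw⟩
    have := (h2 n).2
    rw [hn] at this
    exact ⟨n, this.1 fun i hi h => hv' ⟨i, by rw [if_pos hi] at h; exact h.symm⟩,
      this.2 fun i hi h => hw' ⟨i, by rw [if_pos hi] at h; exact h.symm⟩⟩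

lemma fin_dist : ∃ c : Cn → Option (Bool × Bool), Disting G c := by
  classical
  choose P h1 h2 h3 h4 using ray
  let rep : Cn → Cn := fun x => (Quotient.mk E x).out
  have r1 : ∀ x, E x (rep x) := fun x => E.symm (Quotient.mk_out (s := E) x)
  have r2 : ∀ x y, E x (rep y) → rep x = rep y := fun x y h =>
    congrArg Quotient.out (Quotient.sound (s := E) (E.trans h (E.symm (r1 y))))
  let c : Cn → Option (Bool × Bool) := fun y =>
    if h : ∃ i, P (rep y) i = y then some (decide (h.choose = 0), rep y h.choose) else none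
  have c1 : ∀ x i, c (P (rep x) i) = some (decide (i = 0), rep x i) := fun x i => by
    have e := r2 _ _ (h1 (rep x) i)
    have h : ∃ j, P (rep (P (rep x) i)) j = P (rep x) i := ⟨i, by rw [e]⟩
    have : h.choose = i := h2 (rep x) (by
      have := h.choose_spec
      generalize h.choose = j at this
      rwa [e] at this)
    simp only [c]
    rw [dif_pos h, this, e]
  have c2 : ∀ y, c y ≠ none → ∃ i, P (rep y) i = y := fun y h => by
    by_contra hn; exact h (dif_neg hn)
  have c3 : ∀ y, y ∉ range (P (rep y)) → c y = none := fun y h => dif_neg h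
  refine ⟨c, fun φ hφ => ?_⟩
  have hA : ∀ x y, A (φ x) (φ y) ↔ A x y := fun x y => φ.map_adj_iff
  have red : ∀ x i, φ (P (rep x) i) = P (rep x) i := by
    intro x
    set y := φ (P (rep x) 0)
    have key : ∀ i, φ (P (rep x) i) = P (rep y) i := by
      intro i
      induction i using Nat.strong_induction_on with
      | _ i ih =>
      obtain ⟨j, hj⟩ := c2 (φ (P (rep x) i)) (by rw [hφ, c1]; simp)
      rcases i with _ | n
      · have := hφ (P (rep x) 0)
        rw [← hj, c1, c1] at this
        simp only [decide_true, Option.some.injEq, Prod.mk.injEq, decide_eq_true_eq] at this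
        rw [this.1] at hj
        exact hj.symm
      · have a := (hA _ _).2 ((h3 (rep x) n (n + 1)).2 (Or.inl rfl))
        rw [ih n (by omega)] at a
        rw [r2 _ y (E.trans (E.symm a.e) (h1 _ _))] at hj
        rw [← hj] at a
        rcases (h3 _ _ _).1 a with h | h
        · rw [← hj, h]
        · rw [← ih j (by omega)] at hj
          have := h2 _ (φ.injective hj)
          omega
    have : rep y = rep x := funext fun i => by
      have := hφ (P (rep x) i)
      rw [key, c1, c1] at this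
      simpa using this
    rwa [this] at key
  intro v
  by_cases hv : v ∈ range (P (rep v))
  · obtain ⟨i, hi⟩ := hv
    rw [← hi, red]
  obtain ⟨i, hi, -⟩ := h4 _ v v (r1 v) (r1 v) hv hv
  have a := (hA _ _).2 hi
  rw [red] at a
  have e : E (φ v) (rep v) := E.trans a.e (h1 _ _)
  obtain ⟨j, b1, b2⟩ := h4 _ v (φ v) (r1 v) e hv (by
    rintro ⟨k, hk⟩
    have := hφ v
    rw [← hk, c1, c3 v hv] at this
    simp at this)
  by_contra hne
  apply b2 hne
  rw [← red]
  exact (hA _ _).2 b1

lemma not_dist {I : Type} [Countable I] {c : Cn → I} (hc : ∀ k, MeasurableSet (c ⁻¹' {k})) :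
    ¬ Disting G c := by
  classical
  choose O hO hO' using fun k => (hc k).residualEq_isOpen
  let fl : Finset ℕ → Cn → Cn := fun s x k => if k ∈ s then !x k else x k
  have fc : ∀ s, Continuous (fl s) := fun s => continuous_pi fun k => by
    simp only [fl]; split_ifs
    · exact (continuous_of_discreteTopology (f := fun b : Bool => !b)).comp (continuous_apply k)
    · exact continuous_apply k
  have fi : ∀ s, Function.Involutive (fl s) := fun s x => funext fun k => by
    simp only [fl]; split_ifs <;> simp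
  have fo : ∀ s, IsOpenMap (fl s) := fun s =>
    (Homeomorph.mk (fi s).toPerm (fc s) (fc s)).isOpenMap
  have : ∀ᶠ x in residual Cn, ∀ s k, (fl s x ∈ c ⁻¹' {k}) = (fl s x ∈ O k) :=
    eventually_countable_forall.2 fun s => eventually_countable_forall.2 fun k =>
      (tendsto_residual_of_isOpenMap (fc s) (fo s)).eventually (hO' k)
  obtain ⟨x, hx⟩ := (dense_of_mem_residual this).nonempty
  have gen : ∀ y, E y x → ∀ k, c y = k ↔ y ∈ O k := by
    intro y hy k
    obtain ⟨m, hm⟩ := eventually_atTop.1 hy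
    have : fl ((Finset.range m).filter fun k => y k ≠ x k) x = y := funext fun k => by
      simp only [fl, Finset.mem_filter, Finset.mem_range]
      split_ifs with h
      · have := h.2; revert this; cases y k <;> cases x k <;> simp
      · by_contra hn
        exact h ⟨by by_contra hk; exact hn (hm k (by omega)).symm, fun e => hn e.symm⟩
    have h := hx ((Finset.range m).filter fun k => y k ≠ x k) k
    rw [this] at h
    exact iff_of_eq h
  haveI : Countable {y // E y x} := (cls_countable x).to_subtype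
  haveI : Infinite {y // E y x} := (Set.infinite_coe_iff (s := {y | E y x})).2 fun h => by
    obtain ⟨z, h1, -, h2, -⟩ := ext x x 0 h (fun t ht => ht) ∅
    exact h2 h1
  obtain ⟨ε⟩ := nonempty_equiv_of_countable (α := ℕ) (β := {y // E y x})
  let l : ℕ → {k // ∃ n, c (ε n) = k} := fun n => ⟨_, n, rfl⟩
  have hE : Pool.Agent.Lib.H11BackForth.Ext (fun _ _ => True) (G.comap fun n => (ε n : Cn)) l := by
    refine ⟨fun _ _ _ => trivial, fun T U ⟨k, n, hn⟩ _ => ?_⟩
    obtain ⟨I', u, u1, u2⟩ := isOpen_pi_iff.1 (hO k) _ ((gen _ (ε n).2 k).1 hn)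
    obtain ⟨z, z1, z2, z3, z4⟩ := ext x (ε n) (I'.sup id + 1)
      (T := (fun n => (ε n : Cn)) '' T) (T.finite_toSet.image _)
      (by rintro _ ⟨t, -, rfl⟩; exact (ε t).2) ((fun n => (ε n : Cn)) '' U)
    refine ⟨ε.symm ⟨z, z1⟩, fun h => z3 ⟨_, h, by simp⟩, Subtype.ext ?_, fun t ht => ?_⟩
    · simp only [l, Equiv.apply_symm_apply]
      refine (gen z z1 k).2 (u2 fun a ha => ?_)
      have : a ≤ I'.sup id := Finset.le_sup (f := id) ha
      rw [z2 a (by omega)]
      exact (u1 a ha).2
    · simp only [SimpleGraph.comap_adj, Equiv.apply_symm_apply]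
      exact (z4 _ ⟨t, ht, rfl⟩).trans
        ((Subtype.val_injective.comp ε.injective).mem_set_image)
  obtain ⟨b, b1, b2, -⟩ := hE.2 {0} ∅ (l 0) (by simp)
  obtain ⟨e, e1, e2, e3⟩ := Pool.Agent.Lib.H11BackForth.exists_iso hE hE {(0, b)} (by
    simp [Pool.Agent.Lib.H11BackForth.Compat, b2])
  have p1 : ∀ n, Equiv.Perm.extendDomain e ε (ε n) = ε (e n) := fun n => Equiv.Perm.extendDomain_apply_image _ _ _
  have p2 : ∀ y, ¬ E y x → Equiv.Perm.extendDomain e ε y = y := fun y h =>
    Equiv.Perm.extendDomain_apply_not_subtype _ _ h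
  have p3 : ∀ y, E y x → ∃ n, y = ε n := fun y h => ⟨ε.symm ⟨y, h⟩, by simp⟩
  intro hD
  have := hD ⟨Equiv.Perm.extendDomain e ε, fun {y z} => ?_⟩ (fun y => ?_) (ε 0)
  · have h : Equiv.Perm.extendDomain e ε (ε 0) = ε 0 := this
    rw [p1, e1 (0, b) (by simp)] at h
    exact b1 (Finset.mem_singleton.2 (ε.injective (Subtype.ext h)))
  · by_cases hy : E y x <;> by_cases hz : E z x
    · obtain ⟨n, rfl⟩ := p3 y hy
      obtain ⟨m, rfl⟩ := p3 z hz
      rw [p1, p1]; exact e3 n m
    · obtain ⟨n, rfl⟩ := p3 y hy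
      rw [p1, p2 z hz]
      exact ⟨fun h => absurd (E.trans (E.symm (A.e h)) (ε _).2) hz,
        fun h => absurd (E.trans (E.symm (A.e h)) (ε _).2) hz⟩
    · obtain ⟨n, rfl⟩ := p3 z hz
      rw [p1, p2 y hy]
      exact ⟨fun h => absurd (E.trans (A.e h) (ε _).2) hy,
        fun h => absurd (E.trans (A.e h) (ε _).2) hy⟩
    · rw [p2 y hy, p2 z hz]
  · show c (Equiv.Perm.extendDomain e ε y) = c y
    by_cases hy : E y x
    · obtain ⟨n, rfl⟩ := p3 y hy
      rw [p1]; exact congrArg Subtype.val (e2 n)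
    · rw [p2 y hy]

theorem result : ∃ (X : Type) (_ : MeasurableSpace X) (_ : StandardBorelSpace X)
    (G : SimpleGraph X), MeasurableSet {p : X × X | G.Adj p.1 p.2} ∧
    (∃ (I : Type) (c : X → I), Finite I ∧ Disting G c) ∧
    ∀ (I : Type) [MeasurableSpace I] [StandardBorelSpace I] (c : X → I), Measurable c →
      Disting G c → Uncountable I := by
  obtain ⟨c, hc⟩ := fin_dist
  refine ⟨Cn, inferInstance, inferInstance, G, meas, ⟨_, c, inferInstance, hc⟩,
    fun I _ _ c hc hD => ?_⟩
  by_contra h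
  rw [not_uncountable_iff] at h
  exact not_dist (fun k => hc (measurableSet_singleton k)) hD

end Pool.Agent.Results.MP_591151_lc.Rado
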